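import Mathlib
import Pool.Agent.Work.MP_db704b_co_helper56.Final

set_option autoImplicit false

namespace Pool.Agent.Results.MP_db704b_co.GirthFive

/-- For every `N` there is a finite graph `G` with chromatic number at least `N` such that every
subgraph `H` of `G` without a 4-cycle is 12-colourable; in particular every subgraph of girth at
least 5 is. -/
theorem result (N : ℕ) : ∃ (V : Type) (_ : Fintype V) (G : SimpleGraph V),
    (N : ℕ∞) ≤ G.chromaticNumber ∧
    ∀ H : SimpleGraph V, H ≤ G →
      (∀ u v x y : V, u ≠ v → x ≠ y → H.Adj u x → H.Adj x v → H.Adj v y → ¬ H.Adj y u) →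
      H.Colorable 12 := by
  refine ⟨Pool.EH.VV (Pool.EH.NN N) N, inferInstance, Pool.EH.GG (Pool.EH.NN N) (Pool.EH.BB N) N,
    ?_, ?_⟩
  · rw [SimpleGraph.le_chromaticNumber_iff_colorable]
    intro m hm
    by_contra hlt
    exact Pool.EH.not_colorable_GG N (hm.mono (not_le.1 hlt).le)
  · intro H hH hC
    apply Pool.EH.colorable_GG N H hH
    intro u v x y huv hxy hux huy hvx hvy
    exact hC u v x y huv hxy hux hvx.symm hvy huy.symm

end Pool.Agent.Results.MP_db704b_co.GirthFive
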