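import Pool.Agent.Work.MP_db704b_co.Main

/-!
# Subgraphs of large girth and large chromatic number

Let `k ≥ 1`, `g ≥ 3` and `C = g * 128 ^ g * k ^ (3 * g - 4)`. A finite graph `G` that has a vertex set
`U` without independent subsets of size `|U| / C`, in particular every graph on `n` vertices with
chromatic number larger than `C * (1 + log₂ n)`, has a subgraph `H` of girth at least `g` with
chromatic number larger than `k`.

Idea. Among the probability distributions on the subsets `I ⊆ U` with `|I| ≥ |U| / (2k)` take one
that minimises the energy `∑ P_e ^ (g - 1)` over the edges `e` of `G`, where `P_e` is the probability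
that `I` contains `e`. If the energy is `O(|U|)`, the intersection of `g - 1` independent random
sets spans few edges on average, so `G` has a large independent set. Otherwise keep each edge with
probability proportional to `P_e ^ (g - 2)`: the first order condition at the minimiser makes every
large set span many kept edges, and the cycles of length less than `g` are few, because the
weight of a cycle is at most the product of `P_f ^ (g - 1)` over all its edges `f` but the one of
least `P_f`, and the energies at the vertices are bounded outside a small set.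
-/

set_option autoImplicit false

namespace Pool.Agent.Results.MP_db704b_co.IndependenceRatio

open Pool.Agent.Work.MP_db704b_co

theorem result (k g : ℕ) (hk : 1 ≤ k) (hg : 3 ≤ g) (V : Type) [Fintype V] (G : SimpleGraph V) :
    (∃ H ≤ G, (g : ℕ∞) ≤ H.egirth ∧ (k : ℕ∞) < H.chromaticNumber ∧
      ∃ U : Finset V, ∀ I ⊆ U, H.IsIndepSet (I : Set V) → k * I.card < U.card) ∨
    ((∀ U : Finset V, ∃ I ⊆ U, G.IsIndepSet (I : Set V) ∧
        U.card ≤ g * 128 ^ g * k ^ (3 * g - 4) * I.card) ∧
      G.chromaticNumber ≤
        ((g * 128 ^ g * k ^ (3 * g - 4) * (Nat.log 2 (Fintype.card V) + 1) : ℕ) : ℕ∞)) := by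
  by_cases h : ∀ U : Finset V, U.Nonempty → ∃ I ⊆ U, G.IsIndepSet (I : Set V) ∧
      U.card ≤ g * 128 ^ g * k ^ (3 * g - 4) * I.card
  · right
    refine ⟨fun U => ?_, chromaticNumber_le_of_ratio G _ ?_ h⟩
    · rcases U.eq_empty_or_nonempty with rfl | hU
      · exact ⟨∅, Finset.Subset.refl _, by simp [SimpleGraph.IsIndepSet], by simp⟩
      · exact h U hU
    · have h1 : 1 ≤ 128 ^ g := Nat.one_le_pow _ _ (by norm_num)
      have h2 : 1 ≤ k ^ (3 * g - 4) := Nat.one_le_pow _ _ hk
      calc 1 = 1 * 1 * 1 := by norm_num
        _ ≤ g * 128 ^ g * k ^ (3 * g - 4) :=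
          Nat.mul_le_mul (Nat.mul_le_mul (by omega) h1) h2
  · left
    push Not at h
    obtain ⟨U, hU, hα⟩ := h
    obtain ⟨H, hHG, hgirth, hH⟩ := ratio_main G k g hk hg U hU hα
    exact ⟨H, hHG, hgirth, lt_chromaticNumber_of_ratio H k U hH, U, hH⟩

end Pool.Agent.Results.MP_db704b_co.IndependenceRatio
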